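import Mathlib

namespace Pool.Agent.Results.MP_0168d2_co.Four

variable {A : Type} [LinearOrder A]

/-- `L` is a factorial, extendable language that contains the empty word and every letter. -/
def IsLang (L : Set (List A)) : Prop :=
  [] ∈ L ∧ (∀ a, [a] ∈ L) ∧ (∀ a u, a :: u ∈ L → u ∈ L) ∧ (∀ u b, u ++ [b] ∈ L → u ∈ L) ∧
    ∀ v ∈ L, (∃ a, a :: v ∈ L) ∧ ∃ b, v ++ [b] ∈ L

def Bispecial (L : Set (List A)) (w : List A) : Prop :=
  w ∈ L ∧ (∃ a a', a ≠ a' ∧ a :: w ∈ L ∧ a' :: w ∈ L) ∧
    ∃ b b', b ≠ b' ∧ w ++ [b] ∈ L ∧ w ++ [b'] ∈ L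

/-- The order condition for the symmetric pair: `<` on the left and its reverse on the right. -/
def SymOrder (L : Set (List A)) : Prop :=
  ∀ v, Bispecial L v → ∀ x y x' y', x :: (v ++ [y]) ∈ L → x' :: (v ++ [y']) ∈ L →
    x ≠ x' → y ≠ y' → (x < x' ↔ y' < y)

/-- No bispecial word has a connection for the symmetric pair. -/
def NoConn (L : Set (List A)) : Prop :=
  ∀ w, Bispecial L w → ¬ ∃ a a' b b', a ⋖ a' ∧ b' ⋖ b ∧ a :: (w ++ [b]) ∈ L ∧
    a' :: (w ++ [b']) ∈ L ∧ a :: (w ++ [b']) ∉ L ∧ a' :: (w ++ [b]) ∉ L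

/-- The number of palindromes of length `n` in `L`. -/
noncomputable def PC (L : Set (List A)) (n : ℕ) : ℕ :=
  Set.ncard {w | w ∈ L ∧ w.length = n ∧ w.reverse = w}

def e (a b : Fin 4) : Prop :=
  (a = 0 ∧ b ≠ 0) ∨ (a = 1 ∧ b = 1) ∨ (a = 2 ∧ b = 1) ∨ (a = 3 ∧ (b = 0 ∨ b = 1))

instance : DecidableRel e := fun a b => by unfold e; infer_instance

def LL : Set (List (Fin 4)) := {w | List.IsChain e w}

lemma ones : ∀ (t : List (Fin 4)), List.IsChain e (1 :: t) → ∀ x ∈ (1 :: t).getLast?, x = 1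
  | [], _ => by simp
  | b :: t, h => by
    rw [List.isChain_cons_cons] at h
    have hb : b = 1 := (by decide : ∀ b : Fin 4, e 1 b → b = 1) b h.1
    subst hb
    rw [List.getLast?_cons_cons]
    exact ones t h.2

lemma bisp (w : List (Fin 4)) (h : Bispecial LL w) : w = [] := by
  obtain ⟨hw, ⟨a, a', ha, h1, h2⟩, b, b', hb, h3, h4⟩ := h
  cases w with
  | nil => rfl
  | cons c t =>
    exfalso
    simp only [LL, Set.mem_ofPred_eq, List.isChain_cons_cons] at h1 h2
    have hc : c = 1 :=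
      (by decide : ∀ a a' c : Fin 4, a ≠ a' → e a c → e a' c → c = 1) a a' c ha h1.1 h2.1
    subst hc
    simp only [LL, Set.mem_ofPred_eq, List.isChain_append] at h3 h4
    obtain ⟨x, hx⟩ : ∃ x, x ∈ (1 :: t).getLast? := ⟨_, List.getLast?_eq_some_getLast (by simp)⟩
    have k1 := h3.2.2 x hx b (by simp)
    have k2 := h4.2.2 x hx b' (by simp)
    rw [ones t hw x hx] at k1 k2
    exact (by decide : ∀ b b' : Fin 4, b ≠ b' → e 1 b → e 1 b' → False) b b' hb k1 k2

theorem result : ∃ L : Set (List (Fin 4)), IsLang L ∧ SymOrder L ∧ NoConn L ∧ PC L 3 = 3 := by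
  refine ⟨LL, ⟨by simp [LL], by simp [LL], ?_, ?_, ?_⟩, ?_, ?_, ?_⟩
  · intro a u h
    exact List.IsChain.tail h
  · intro u b h
    exact (List.isChain_append.1 h).1
  · intro v hv
    constructor
    · cases v with
      | nil => exact ⟨0, by simp [LL]⟩
      | cons c t =>
        obtain ⟨a, ha⟩ : ∃ a, e a c := (by decide : ∀ c : Fin 4, ∃ a, e a c) c
        exact ⟨a, List.isChain_cons_cons.2 ⟨ha, hv⟩⟩
    · by_cases h0 : v = []
      · subst h0; exact ⟨0, by simp [LL]⟩
      · obtain ⟨b, hb⟩ : ∃ b, e (v.getLast h0) b := by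
          generalize v.getLast h0 = c
          revert c; decide
        refine ⟨b, List.isChain_append.2 ⟨hv, by simp, ?_⟩⟩
        intro x hx y hy
        rw [List.getLast?_eq_some_getLast h0] at hx
        simp only [Option.mem_def, Option.some.injEq, List.head?_cons] at hx hy
        rw [← hx, ← hy]
        exact hb
  · intro v hv
    rw [bisp v hv]
    simp only [LL, Set.mem_ofPred_eq, List.nil_append, List.isChain_pair]
    decide
  · intro w hw
    rw [bisp w hw]
    simp only [LL, Set.mem_ofPred_eq, List.nil_append, List.isChain_pair, CovBy]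
    decide
  · have : {w | w ∈ LL ∧ w.length = 3 ∧ w.reverse = w} =
        ((({[0, 3, 0], [3, 0, 3], [1, 1, 1]} : Finset (List (Fin 4)))) : Set (List (Fin 4))) := by
      ext w
      simp only [Set.mem_ofPred_eq, Finset.coe_insert, Finset.coe_singleton, Set.mem_insert_iff,
        Set.mem_singleton_iff, LL]
      constructor
      · rintro ⟨h1, h2, h3⟩
        obtain ⟨a, b, c, rfl⟩ := List.length_eq_three.1 h2
        revert a b c
        decide
      · rintro (rfl | rfl | rfl) <;> decide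
    unfold PC
    rw [this, Set.ncard_coe_finset]
    decide

end Pool.Agent.Results.MP_0168d2_co.Four
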